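import Pool.Agent.H32.S36.Targets

set_option autoImplicit false

open Complex Polynomial

namespace Pool.Agent.H32.S36

noncomputable section

namespace F4aux

theorem toPS (f : LaurentSeries ℤ) (k : ℤ) (h : ∀ n : ℤ, n < k → f.coeff n = 0) :
    ∃ P : PowerSeries ℤ, f = HahnSeries.single k 1 * HahnSeries.ofPowerSeries ℤ ℤ P ∧
      ∀ n : ℕ, PowerSeries.coeff n P = f.coeff (k + n) := by
  refine ⟨PowerSeries.mk (fun n => f.coeff (k + n)), ?_, fun n => by simp⟩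
  ext n
  rw [HahnSeries.coeff_single_mul, one_mul]
  rw [PowerSeries.coeff_coe]
  split_ifs with h0
  · exact h n (by omega)
  · rw [PowerSeries.coeff_mk]
    congr 1
    omega

theorem numdvd (F G D : PowerSeries ℤ)
    (f0 : PowerSeries.coeff 0 F = 1) (f1 : PowerSeries.coeff 1 F = 2)
    (f2 : PowerSeries.coeff 2 F = 10) (f3 : PowerSeries.coeff 3 F = 8)
    (g0 : PowerSeries.coeff 0 G = 1) (g1 : PowerSeries.coeff 1 G = 4)
    (g2 : PowerSeries.coeff 2 G = 22) (g3 : PowerSeries.coeff 3 G = 56)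
    (d0 : PowerSeries.coeff 0 D = 1) (d1 : PowerSeries.coeff 1 D = -4)
    (d2 : PowerSeries.coeff 2 D = -2) (d3 : PowerSeries.coeff 3 D = 24) :
    (PowerSeries.X : PowerSeries ℤ) ^ 4 ∣ F ^ 4 - G ^ 3 * D := by
  have key : ∀ (A : PowerSeries ℤ) (a0 a1 a2 a3 : ℤ), PowerSeries.coeff 0 A = a0 →
      PowerSeries.coeff 1 A = a1 → PowerSeries.coeff 2 A = a2 → PowerSeries.coeff 3 A = a3 →
      (PowerSeries.X : PowerSeries ℤ) ^ 4 ∣ A - (PowerSeries.C a0 + PowerSeries.C a1 *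
        PowerSeries.X ^ 1 + PowerSeries.C a2 * PowerSeries.X ^ 2
        + PowerSeries.C a3 * PowerSeries.X ^ 3) := by
    intro A a0 a1 a2 a3 h0 h1 h2 h3
    rw [PowerSeries.X_pow_dvd_iff]
    intro m hm
    simp only [map_sub, map_add, PowerSeries.coeff_C_mul, PowerSeries.coeff_X_pow,
      PowerSeries.coeff_C]
    interval_cases m
    · simp [h0]
    · simp [h1]
    · simp [h2]
    · simp [h3]
  have hF := key F 1 2 10 8 f0 f1 f2 f3
  have hG := key G 1 4 22 56 g0 g1 g2 g3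
  have hD := key D 1 (-4) (-2) 24 d0 d1 d2 d3
  have e1 := hF.trans (sub_dvd_pow_sub_pow F _ 4)
  have e2 := hG.trans (sub_dvd_pow_sub_pow G _ 3)
  have e3 : ((PowerSeries.C 1 + PowerSeries.C 2 *
        PowerSeries.X ^ 1 + PowerSeries.C 10 * PowerSeries.X ^ 2
        + PowerSeries.C 8 * PowerSeries.X ^ 3) ^ 4 - (PowerSeries.C 1 + PowerSeries.C 4 *
        PowerSeries.X ^ 1 + PowerSeries.C 22 * PowerSeries.X ^ 2
        + PowerSeries.C 56 * PowerSeries.X ^ 3) ^ 3 * (PowerSeries.C 1 + PowerSeries.C (-4) *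
        PowerSeries.X ^ 1 + PowerSeries.C (-2) * PowerSeries.X ^ 2
        + PowerSeries.C 24 * PowerSeries.X ^ 3) : PowerSeries ℤ) =
      PowerSeries.X ^ 4 * ((416)*PowerSeries.X^0 + (2368)*PowerSeries.X^1
        + (14272)*PowerSeries.X^2 + (41856)*PowerSeries.X^3 + (25152)*PowerSeries.X^4
        + (-251392)*PowerSeries.X^5 + (-1695744)*PowerSeries.X^6 + (-4595712)*PowerSeries.X^7
        + (-4210688)*PowerSeries.X^8) := by
    simp only [map_ofNat, map_one, map_neg]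
    ring
  have e4 : F ^ 4 - G ^ 3 * D = (F ^ 4 - (PowerSeries.C 1 + PowerSeries.C 2 *
        PowerSeries.X ^ 1 + PowerSeries.C 10 * PowerSeries.X ^ 2
        + PowerSeries.C 8 * PowerSeries.X ^ 3) ^ 4) - G ^ 3 * (D - (PowerSeries.C 1 +
        PowerSeries.C (-4) * PowerSeries.X ^ 1 + PowerSeries.C (-2) * PowerSeries.X ^ 2
        + PowerSeries.C 24 * PowerSeries.X ^ 3)) - (G ^ 3 - (PowerSeries.C 1 + PowerSeries.C 4 *
        PowerSeries.X ^ 1 + PowerSeries.C 22 * PowerSeries.X ^ 2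
        + PowerSeries.C 56 * PowerSeries.X ^ 3) ^ 3) * (PowerSeries.C 1 + PowerSeries.C (-4) *
        PowerSeries.X ^ 1 + PowerSeries.C (-2) * PowerSeries.X ^ 2
        + PowerSeries.C 24 * PowerSeries.X ^ 3) + ((PowerSeries.C 1 + PowerSeries.C 2 *
        PowerSeries.X ^ 1 + PowerSeries.C 10 * PowerSeries.X ^ 2
        + PowerSeries.C 8 * PowerSeries.X ^ 3) ^ 4 - (PowerSeries.C 1 + PowerSeries.C 4 *
        PowerSeries.X ^ 1 + PowerSeries.C 22 * PowerSeries.X ^ 2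
        + PowerSeries.C 56 * PowerSeries.X ^ 3) ^ 3 * (PowerSeries.C 1 + PowerSeries.C (-4) *
        PowerSeries.X ^ 1 + PowerSeries.C (-2) * PowerSeries.X ^ 2
        + PowerSeries.C 24 * PowerSeries.X ^ 3)) := by
    ring
  rw [e4, e3]
  refine dvd_add (dvd_sub (dvd_sub e1 (hD.mul_left _)) (e2.mul_right _)) (dvd_mul_right _ _)

theorem num (f x d : LaurentSeries ℤ)
    (nf : (∀ n : ℤ, n < 0 → f.coeff n = 0) ∧ f.coeff 0 = 1 ∧ f.coeff 1 = 2 ∧ f.coeff 2 = 10 ∧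
      f.coeff 3 = 8)
    (nx : (∀ n : ℤ, n < -1 → x.coeff n = 0) ∧ x.coeff (-1) = 1 ∧ x.coeff 0 = 4 ∧
      x.coeff 1 = 22 ∧ x.coeff 2 = 56)
    (nd : (∀ n : ℤ, n < 3 → d.coeff n = 0) ∧ d.coeff 3 = 1 ∧ d.coeff 4 = -4 ∧ d.coeff 5 = -2 ∧
      d.coeff 6 = 24) (n : ℤ) (hn : n < 4) : (f ^ 4 - x ^ 3 * d).coeff n = 0 := by
  obtain ⟨F, hF, cF⟩ := toPS f 0 nf.1
  obtain ⟨G, hG, cG⟩ := toPS x (-1) nx.1
  obtain ⟨D, hD, cD⟩ := toPS d 3 nd.1
  have hdvd := numdvd F G D (by rw [cF]; exact nf.2.1) (by rw [cF]; exact nf.2.2.1)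
    (by rw [cF]; exact nf.2.2.2.1) (by rw [cF]; exact nf.2.2.2.2)
    (by rw [cG]; exact nx.2.1) (by rw [cG]; exact nx.2.2.1)
    (by rw [cG]; exact nx.2.2.2.1) (by rw [cG]; exact nx.2.2.2.2)
    (by rw [cD]; exact nd.2.1) (by rw [cD]; exact nd.2.2.1)
    (by rw [cD]; exact nd.2.2.2.1) (by rw [cD]; exact nd.2.2.2.2)
  have e1 : HahnSeries.single (-1 : ℤ) (1 : ℤ) ^ 3 * HahnSeries.single (3 : ℤ) (1 : ℤ) = 1 := by
    rw [HahnSeries.single_pow, HahnSeries.single_mul_single]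
    norm_num
  have e0 : f = HahnSeries.ofPowerSeries ℤ ℤ F := by
    rw [hF]
    rw [show (HahnSeries.single (0 : ℤ) (1 : ℤ)) = 1 from rfl, one_mul]
  have e2 : f ^ 4 - x ^ 3 * d = HahnSeries.ofPowerSeries ℤ ℤ (F ^ 4 - G ^ 3 * D) := by
    rw [e0, hG, hD, map_sub, map_mul, map_pow, map_pow]
    have : (HahnSeries.single (-1 : ℤ) (1 : ℤ) * HahnSeries.ofPowerSeries ℤ ℤ G) ^ 3 *
        (HahnSeries.single (3 : ℤ) (1 : ℤ) * HahnSeries.ofPowerSeries ℤ ℤ D) =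
        (HahnSeries.single (-1 : ℤ) (1 : ℤ) ^ 3 * HahnSeries.single (3 : ℤ) (1 : ℤ)) *
          (HahnSeries.ofPowerSeries ℤ ℤ G ^ 3 * HahnSeries.ofPowerSeries ℤ ℤ D) := by ring
    rw [this, e1, one_mul]
  rw [e2, PowerSeries.coeff_coe]
  split_ifs with h0
  · rfl
  · exact PowerSeries.X_pow_dvd_iff.1 hdvd _ (by omega)

theorem low_mul (f g : LaurentSeries ℂ) (a b : ℤ) (hf : ∀ n : ℤ, n < a → f.coeff n = 0)
    (hg : ∀ n : ℤ, n < b → g.coeff n = 0) (n : ℤ) (hn : n < a + b) : (f * g).coeff n = 0 := by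
  rw [HahnSeries.coeff_mul]
  refine Finset.sum_eq_zero (fun ij hij => ?_)
  simp only [HahnSeries.mem_support, Finset.mem_antidiagonal] at hij
  exfalso
  obtain ⟨h1, h2, h3⟩ := hij
  have h4 : a ≤ ij.1 := by
    by_contra h
    exact h1 (hf _ (by omega))
  have h5 : b ≤ ij.2 := by
    by_contra h
    exact h2 (hg _ (by omega))
  omega

end F4aux

open F4aux in
theorem m_F4 (h1 : T_MFF) (h2 : T_VTR) (h3 : T_FVL) (h4 : T_NU1) (h5 : T_NU2) (h6 : T_LIO)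
    (h7 : T_HLD) (h8 : T_HLM) (h9 : T_QUO) (h10 : T_UNI) : T_F4 := by
  obtain ⟨vz, vi, dz, hv, hvi, hd, hvv, hE, hD⟩ := h3
  obtain ⟨nv, nvi, nd⟩ := h4 vz vi dz hvv hE hD
  obtain ⟨nx, nf, -⟩ := h5 vz vi nv nvi
  obtain ⟨mx, mf, -⟩ := h1
  obtain ⟨hvt, md⟩ := h2
  have lf : HL ff (zc (-(th vz * vi))) := by
    have a1 := (h7 fv (zc vz) hv).2
    have a2 := (h8 _ _ _ _ a1 hvi).neg
    rw [zc_neg, zc_mul, zc_th]
    refine a2.congr (fun τ hτ => ?_)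
    unfold ff
    ring
  have lx : HL fx (zc (vz + 6 + 25 * vi)) := by
    have a1 := (hv.add (HL.const 6)).add (hvi.smul 25)
    have e : zc (vz + 6 + 25 * vi) = zc vz + HahnSeries.C 6 + HahnSeries.C 25 * zc vi := by
      have : zc (vz + 6 + 25 * vi) = zcHom (vz + 6 + 25 * vi) := rfl
      rw [this]
      simp only [map_add, map_mul, map_ofNat, zcHom_apply]
    rw [e]
    refine a1.congr (fun τ hτ => ?_)
    unfold fx
    ring
  set fz := -(th vz * vi) with hfz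
  set xz := vz + 6 + 25 * vi with hxz
  have l1 : HL (fun τ => ff τ ^ 4) (zc (fz ^ 4)) := by
    have a1 := h8 _ _ _ _ (h8 _ _ _ _ lf lf) (h8 _ _ _ _ lf lf)
    have e : zc (fz ^ 4) = zc fz * zc fz * (zc fz * zc fz) := by
      rw [zc_pow]; ring
    rw [e]
    refine a1.congr (fun τ hτ => ?_)
    ring
  have l2 : HL (fun τ => fx τ ^ 3 * fD τ) (zc (xz ^ 3 * dz)) := by
    have a1 := h8 _ _ _ _ (h8 _ _ _ _ (h8 _ _ _ _ lx lx) lx) hd
    have e : zc (xz ^ 3 * dz) = zc xz * zc xz * zc xz * zc dz := by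
      rw [zc_mul, zc_pow]; ring
    rw [e]
    refine a1.congr (fun τ hτ => ?_)
    ring
  have l3 : HL (fun τ => ff τ ^ 4 - fx τ ^ 3 * fD τ) (zc (fz ^ 4 - xz ^ 3 * dz)) := by
    rw [zc_sub]
    exact l1.sub l2
  obtain ⟨g, hg, glow, -⟩ := h10 dz 3 nd.1 nd.2.1
  have hDne : ∀ τ : ℂ, 0 < τ.im → fD τ ≠ 0 := fun τ hτ => (hvt τ hτ).2.2.2.2.2
  have hhol : ∀ τ : ℂ, 0 < τ.im →
      DifferentiableAt ℂ (fun τ => (ff τ ^ 4 - fx τ ^ 3 * fD τ) / fD τ) τ := by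
    intro τ hτ
    exact (((mf.hol τ hτ).pow 4).sub (((mx.hol τ hτ).pow 3).mul (md.hol τ hτ))).div (md.hol τ hτ)
      (hDne τ hτ)
  have hMF : MF 1 0 (fun τ => (ff τ ^ 4 - fx τ ^ 3 * fD τ) / fD τ) := by
    refine ⟨hhol, ?_, ?_, ?_⟩
    · intro τ hτ
      rw [mf.per τ hτ, mx.per τ hτ, md.per τ hτ]
    · intro τ hτ
      have hτ0 : τ ≠ 0 := by rintro rfl; simp at hτ
      have hy : (10 * τ ^ 2 : ℂ) ≠ 0 := mul_ne_zero (by norm_num) (pow_ne_zero _ hτ0)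
      rw [mf.w10 τ hτ, mx.w10 τ hτ, md.w10 τ hτ]
      have e4 : ((10 * τ ^ 2 : ℂ)) ^ (4 : ℤ) = (10 * τ ^ 2) ^ 4 := by norm_cast
      rw [e4, zpow_zero, zpow_one]
      generalize (10 * τ ^ 2 : ℂ) = y at hy
      have := hDne τ hτ
      field_simp
    · intro τ hτ
      have a6 : 0 < (2 * τ - 1).im := by simpa using hτ
      have n4 : (2 * τ - 1 : ℂ) ≠ 0 := by
        intro h0
        rw [h0] at a6
        simp at a6
      have hy : (5 * (2 * τ - 1) ^ 2 : ℂ) ≠ 0 := mul_ne_zero (by norm_num) (pow_ne_zero _ n4)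
      rw [mf.w5 τ hτ, mx.w5 τ hτ, md.w5 τ hτ]
      have e4 : ((5 * (2 * τ - 1) ^ 2 : ℂ)) ^ (4 : ℤ) = (5 * (2 * τ - 1) ^ 2) ^ 4 := by norm_cast
      rw [e4, zpow_zero, zpow_one]
      generalize (5 * (2 * τ - 1) ^ 2 : ℂ) = y at hy
      have := hDne τ hτ
      field_simp
  have hQ := h9 (fun τ => ff τ ^ 4 - fx τ ^ 3 * fD τ) fD
    (fun τ => (ff τ ^ 4 - fx τ ^ 3 * fD τ) / fD τ) _ (zc dz) (zc g) 3 l3 hd
    (by rw [← zc_mul, hg, zc_one]) (by rw [zc_coeff, nd.2.1]; simp)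
    (fun n hn => by rw [zc_coeff, nd.1 n hn]; simp) hhol
    (fun τ hτ => div_mul_cancel₀ _ (hDne τ hτ))
  intro τ hτ
  have h0 := h6 _ _ hMF hQ (fun n hn => by
    refine low_mul _ _ 4 (-3) (fun m hm => ?_) (fun m hm => ?_) n (by omega)
    · rw [zc_coeff, num fz xz dz nf nx nd m hm]; simp
    · rw [zc_coeff, glow m hm]; simp) τ hτ
  rw [div_eq_zero_iff] at h0
  rcases h0 with h0 | h0
  · exact sub_eq_zero.1 h0
  · exact absurd h0 (hDne τ hτ)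

end

end Pool.Agent.H32.S36
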