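import Pool.Agent.H32.S36.Targets

set_option autoImplicit false

open Complex Polynomial

namespace Pool.Agent.H32.S36

noncomputable section

namespace VTR

/-- `exp(πi/6)` -/
def c : ℂ := Complex.exp (Real.pi * Complex.I / 6)

theorem c6 : c ^ 6 = -1 := by
  rw [c, ← Complex.exp_nat_mul]
  rw [show ((6 : ℕ) : ℂ) * (Real.pi * Complex.I / 6) = Real.pi * Complex.I by push_cast; ring]
  exact Complex.exp_pi_mul_I

theorem c0 : c ≠ 0 := Complex.exp_ne_zero _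

theorem im_pos_ne {z : ℂ} (h : 0 < z.im) : z ≠ 0 := by
  rintro rfl
  simp at h

theorem im_S {z : ℂ} (h : 0 < z.im) : 0 < (-1 / z).im := by
  have : (-1 / z).im = z.im / Complex.normSq z := by
    rw [neg_div, one_div, Complex.neg_im, Complex.inv_im]
    ring
  rw [this]
  exact div_pos h (Complex.normSq_pos.2 (im_pos_ne h))


theorem alg1 (x y G : ℂ) (hx : x ≠ 0) :
    -Complex.I * (-y / x) * ((c ^ 2)⁻¹ * (-Complex.I * x * ((c ^ 3)⁻¹ * G))) =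
      y * (c ^ 5)⁻¹ * G := by
  have h1 : (c ^ 5)⁻¹ = (c ^ 2)⁻¹ * (c ^ 3)⁻¹ := by rw [← mul_inv, ← pow_add]
  calc _ = (-(Complex.I * Complex.I)) * y * (x * x⁻¹) * ((c ^ 2)⁻¹ * (c ^ 3)⁻¹) * G := by ring
    _ = _ := by rw [mul_inv_cancel₀ hx, Complex.I_mul_I, h1]; ring

theorem alg5 (x y G : ℂ) (hx : x ≠ 0) :
    c ^ 2 * (-Complex.I * (-y / x) * ((c ^ 2)⁻¹ * (-Complex.I * x * ((c ^ 1)⁻¹ * G)))) =
      y * c⁻¹ * G := by
  have hc := mul_inv_cancel₀ (pow_ne_zero 2 c0)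
  calc _ = (-(Complex.I * Complex.I)) * y * (x * x⁻¹) * (c ^ 2 * (c ^ 2)⁻¹) * (c ^ 1)⁻¹ * G := by
        ring
    _ = _ := by rw [mul_inv_cancel₀ hx, Complex.I_mul_I, hc, pow_one]; ring

theorem alg2 (y G : ℂ) :
    c ^ 1 * (-Complex.I * y * ((c ^ 5)⁻¹ * G)) = -Complex.I * y * (c ^ 4)⁻¹ * G := by
  have h1 : (c ^ 5)⁻¹ = (c ^ 4)⁻¹ * c⁻¹ := by rw [← mul_inv, ← pow_succ]
  calc _ = (c * c⁻¹) * (-Complex.I * y * (c ^ 4)⁻¹ * G) := by rw [h1]; ring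
    _ = _ := by rw [mul_inv_cancel₀ c0, one_mul]

theorem alg10 (y G : ℂ) :
    c ^ 5 * (-Complex.I * y * ((c ^ 1)⁻¹ * G)) = -Complex.I * y * c ^ 4 * G := by
  calc _ = (c * c⁻¹) * (-Complex.I * y * c ^ 4 * G) := by rw [pow_one]; ring
    _ = _ := by rw [mul_inv_cancel₀ c0, one_mul]

variable (h1 : T_ETA)
include h1

theorem gS {z : ℂ} (h : 0 < z.im) : gg (-1 / z) = -Complex.I * z * gg z := (h1 z h).2.1

theorem gT {z : ℂ} (h : 0 < z.im) (n : ℕ) : gg (z + n) = c ^ n * gg z := by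
  induction n with
  | zero => simp
  | succ n ih =>
    have h2 : 0 < (z + n).im := by simpa using h
    have := (h1 (z + n) h2).1
    rw [show z + ((n + 1 : ℕ) : ℂ) = z + n + 1 by push_cast; ring, this, ih, pow_succ]
    rw [← c]
    ring

theorem gTm {z : ℂ} (h : 0 < z.im) (n : ℕ) : gg (z - n) = (c ^ n)⁻¹ * gg z := by
  have h2 : 0 < (z - n).im := by simpa using h
  have := gT h1 h2 n
  rw [sub_add_cancel] at this
  rw [this, ← mul_assoc, inv_mul_cancel₀ (pow_ne_zero _ c0), one_mul]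

theorem gne {z : ℂ} (h : 0 < z.im) : gg z ≠ 0 := (h1 z h).2.2.1

theorem gdiff {z : ℂ} (h : 0 < z.im) : DifferentiableAt ℂ gg z := (h1 z h).2.2.2

theorem im_mul {τ : ℂ} (h : 0 < τ.im) (n : ℕ) (hn : 0 < n) : 0 < ((n : ℂ) * τ).im := by
  have : ((n : ℂ) * τ).im = n * τ.im := by simp
  rw [this]
  positivity

omit h1 in
theorem im2 {τ : ℂ} (h : 0 < τ.im) : 0 < (2 * τ).im := by simpa using h
omit h1 in
theorem im5 {τ : ℂ} (h : 0 < τ.im) : 0 < (5 * τ).im := by simpa using h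
omit h1 in
theorem im10 {τ : ℂ} (h : 0 < τ.im) : 0 < (10 * τ).im := by simpa using h

/-! transformation under `W5` -/

theorem w5_1 {τ : ℂ} (h : 0 < τ.im) : gg ((5 * τ - 3) / (10 * τ - 5)) =
    (10 * τ - 5) * (c ^ 5)⁻¹ * gg (5 * τ) := by
  have h5 := im5 h
  have a1 : 0 < (5 * τ - (3 : ℕ)).im := by simpa using h5
  have a2 := im_S a1
  have a3 : 0 < (-1 / (5 * τ - (3 : ℕ)) - (2 : ℕ)).im := by simpa using a2
  have n1 : (5 * τ - 3 : ℂ) ≠ 0 := by simpa using im_pos_ne a1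
  have a4 : 0 < (10 * τ - 5).im := by simpa using im10 h
  have n2 : (10 * τ - 5 : ℂ) ≠ 0 := im_pos_ne a4
  have n3 : (-1 / (5 * τ - (3 : ℕ)) - (2 : ℕ) : ℂ) ≠ 0 := im_pos_ne a3
  have e0 : (-1 / (5 * τ - (3 : ℕ)) - (2 : ℕ) : ℂ) = -(10 * τ - 5) / (5 * τ - 3) := by
    push_cast
    field_simp
    ring
  have e1 : (5 * τ - 3) / (10 * τ - 5) = -1 / (-1 / (5 * τ - (3 : ℕ)) - (2 : ℕ)) := by
    rw [e0]
    field_simp
  rw [e1, gS h1 a3, gTm h1 a2 2, gS h1 a1, gTm h1 h5 3, e0]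
  exact alg1 _ _ _ n1

theorem w5_5 {τ : ℂ} (h : 0 < τ.im) : gg (5 * ((5 * τ - 3) / (10 * τ - 5))) =
    (2 * τ - 1) * c⁻¹ * gg τ := by
  have a1 : 0 < (τ - (1 : ℕ)).im := by simpa using h
  have a2 := im_S a1
  have a3 : 0 < (-1 / (τ - (1 : ℕ)) - (2 : ℕ)).im := by simpa using a2
  have a4 := im_S a3
  have n1 : (τ - 1 : ℂ) ≠ 0 := by simpa using im_pos_ne a1
  have a5 : 0 < (10 * τ - 5).im := by simpa using im10 h
  have a6 : 0 < (2 * τ - 1).im := by simpa using im2 h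
  have n2 : (10 * τ - 5 : ℂ) ≠ 0 := im_pos_ne a5
  have n4 : (2 * τ - 1 : ℂ) ≠ 0 := im_pos_ne a6
  have e0 : (-1 / (τ - (1 : ℕ)) - (2 : ℕ) : ℂ) = -(2 * τ - 1) / (τ - 1) := by
    push_cast
    field_simp
    ring
  have e1 : 5 * ((5 * τ - 3) / (10 * τ - 5)) =
      -1 / (-1 / (τ - (1 : ℕ)) - (2 : ℕ)) + (2 : ℕ) := by
    rw [e0]
    have : (10 * τ - 5 : ℂ) = 5 * (2 * τ - 1) := by ring
    rw [this]
    have q1 : -1 / (-(2 * τ - 1) / (τ - 1)) = (τ - 1) / (2 * τ - 1) := by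
      rw [div_div_eq_mul_div, neg_mul, one_mul, neg_div_neg_eq]
    have q2 : 5 * ((5 * τ - 3) / (5 * (2 * τ - 1))) = (5 * τ - 3) / (2 * τ - 1) := by
      rw [← mul_div_assoc, mul_div_mul_left _ _ (by norm_num : (5 : ℂ) ≠ 0)]
    rw [q1, q2, div_add' _ _ _ n4]
    push_cast
    congr 1
    ring
  rw [e1, gT h1 a4 2, gS h1 a3, gTm h1 a2 2, gS h1 a1, gTm h1 h 1, e0]
  have n1' : (τ - (1 : ℕ) : ℂ) ≠ 0 := by simpa using n1
  have := alg5 (τ - (1 : ℕ)) (2 * τ - 1) (gg τ) n1'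
  rw [← this]
  push_cast
  ring

theorem w5_2 {τ : ℂ} (h : 0 < τ.im) : gg (2 * ((5 * τ - 3) / (10 * τ - 5))) =
    -Complex.I * (10 * τ - 5) * (c ^ 4)⁻¹ * gg (10 * τ) := by
  have h10 := im10 h
  have a1 : 0 < (10 * τ - (5 : ℕ)).im := by simpa using h10
  have a2 := im_S a1
  have n2 : (10 * τ - 5 : ℂ) ≠ 0 := by simpa using im_pos_ne a1
  have e1 : 2 * ((5 * τ - 3) / (10 * τ - 5)) = -1 / (10 * τ - (5 : ℕ)) + (1 : ℕ) := by
    push_cast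
    rw [← mul_div_assoc, div_add' _ _ _ n2]
    congr 1
    ring
  rw [e1, gT h1 a2 1, gS h1 a1, gTm h1 h10 5]
  have := alg2 (10 * τ - (5 : ℕ)) (gg (10 * τ))
  rw [this]
  push_cast
  ring

theorem w5_10 {τ : ℂ} (h : 0 < τ.im) : gg (10 * ((5 * τ - 3) / (10 * τ - 5))) =
    -Complex.I * (2 * τ - 1) * c ^ 4 * gg (2 * τ) := by
  have h2 := im2 h
  have a1 : 0 < (2 * τ - (1 : ℕ)).im := by simpa using h2
  have a2 := im_S a1
  have n2 : (2 * τ - 1 : ℂ) ≠ 0 := by simpa using im_pos_ne a1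
  have e1 : 10 * ((5 * τ - 3) / (10 * τ - 5)) = -1 / (2 * τ - (1 : ℕ)) + (5 : ℕ) := by
    have : (10 * τ - 5 : ℂ) = 5 * (2 * τ - 1) := by ring
    rw [this]
    push_cast
    rw [← mul_div_assoc, show 10 * (5 * τ - 3) = 5 * (2 * (5 * τ - 3)) by ring,
      mul_div_mul_left _ _ (by norm_num : (5 : ℂ) ≠ 0), div_add' _ _ _ n2]
    congr 1
    ring
  rw [e1, gT h1 a2 5, gS h1 a1, gTm h1 h2 1]
  have := alg10 (2 * τ - (1 : ℕ)) (gg (2 * τ))
  rw [this]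
  push_cast
  ring

/-! transformation under `W10` -/

theorem w10_1 {τ : ℂ} (h : 0 < τ.im) : gg (-1 / (10 * τ)) = -Complex.I * (10 * τ) * gg (10 * τ) :=
  gS h1 (im10 h)

theorem w10_2 {τ : ℂ} (h : 0 < τ.im) : gg (2 * (-1 / (10 * τ))) =
    -Complex.I * (5 * τ) * gg (5 * τ) := by
  have n1 := im_pos_ne h
  rw [show 2 * (-1 / (10 * τ)) = -1 / (5 * τ) by field_simp; ring]
  exact gS h1 (im5 h)

theorem w10_5 {τ : ℂ} (h : 0 < τ.im) : gg (5 * (-1 / (10 * τ))) =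
    -Complex.I * (2 * τ) * gg (2 * τ) := by
  have n1 := im_pos_ne h
  rw [show 5 * (-1 / (10 * τ)) = -1 / (2 * τ) by field_simp; ring]
  exact gS h1 (im2 h)

theorem w10_10 {τ : ℂ} (h : 0 < τ.im) : gg (10 * (-1 / (10 * τ))) =
    -Complex.I * τ * gg τ := by
  have n1 := im_pos_ne h
  rw [show 10 * (-1 / (10 * τ)) = -1 / τ by field_simp]
  exact gS h1 h

/-! translation -/

theorem t_n {τ : ℂ} (n : ℕ) (h : 0 < ((n : ℂ) * τ).im) :
    gg ((n : ℂ) * (τ + 1)) = c ^ n * gg ((n : ℂ) * τ) := by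
  rw [mul_add, mul_one]
  exact gT h1 h n

theorem diff_n {τ : ℂ} (n : ℂ) (h : 0 < (n * τ).im) :
    DifferentiableAt ℂ (fun z => gg (n * z)) τ := by
  have := gdiff h1 h
  exact DifferentiableAt.comp (f := fun z : ℂ => n * z) τ this (by fun_prop)

end VTR

open VTR in
theorem m_VTR (h1 : T_ETA) : T_VTR := by
  have key : ∀ τ : ℂ, 0 < τ.im → gg τ ≠ 0 ∧ gg (2 * τ) ≠ 0 ∧ gg (5 * τ) ≠ 0 ∧ gg (10 * τ) ≠ 0 :=
    fun τ h => ⟨gne h1 h, gne h1 (im2 h), gne h1 (im5 h), gne h1 (im10 h)⟩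
  have hdiff : ∀ τ : ℂ, 0 < τ.im → DifferentiableAt ℂ gg τ ∧
      DifferentiableAt ℂ (fun z => gg (2 * z)) τ ∧ DifferentiableAt ℂ (fun z => gg (5 * z)) τ ∧
      DifferentiableAt ℂ (fun z => gg (10 * z)) τ := fun τ h =>
    ⟨gdiff h1 h, diff_n h1 2 (im2 h), diff_n h1 5 (im5 h), diff_n h1 10 (im10 h)⟩
  have hc := c0
  have hc6 := c6
  have hc12 : c ^ 12 = 1 := by
    calc c ^ 12 = (c ^ 6) ^ 2 := by ring
      _ = 1 := by rw [hc6]; ring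
  have hI2 : Complex.I ^ 2 = -1 := Complex.I_sq
  have hI := Complex.I_ne_zero
  have hper : ∀ τ : ℂ, 0 < τ.im → gg (τ + 1) = c * gg τ ∧ gg (2 * (τ + 1)) = c ^ 2 * gg (2 * τ) ∧
      gg (5 * (τ + 1)) = c ^ 5 * gg (5 * τ) ∧ gg (10 * (τ + 1)) = c ^ 10 * gg (10 * τ) := by
    intro τ h
    refine ⟨?_, ?_, ?_, ?_⟩
    · have := gT h1 h 1
      simpa using this
    · have := t_n h1 (τ := τ) 2 (by simpa using h)
      simpa using this
    · have := t_n h1 (τ := τ) 5 (by simpa using h)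
      simpa using this
    · have := t_n h1 (τ := τ) 10 (by simpa using h)
      simpa using this
  refine ⟨fun τ h => ?_, ?_⟩
  · obtain ⟨k1, k2, k5, k10⟩ := key τ h
    obtain ⟨d1, d2, d5, d10⟩ := hdiff τ h
    obtain ⟨p1, p2, p5, p10⟩ := hper τ h
    have nτ := im_pos_ne h
    have a5 : 0 < (10 * τ - 5).im := by simpa using im10 h
    have a6 : 0 < (2 * τ - 1).im := by simpa using im2 h
    have n2 : (10 * τ - 5 : ℂ) ≠ 0 := im_pos_ne a5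
    have n4 : (2 * τ - 1 : ℂ) ≠ 0 := im_pos_ne a6
    refine ⟨?_, ?_, ?_, ?_, ?_, ?_⟩
    · exact div_ne_zero (mul_ne_zero k1 k2) (mul_ne_zero k5 k10)
    · exact (d1.mul d2).div (d5.mul d10) (mul_ne_zero k5 k10)
    · unfold fv
      rw [p1, p2, p5, p10]
      have : c * gg τ * (c ^ 2 * gg (2 * τ)) / (c ^ 5 * gg (5 * τ) * (c ^ 10 * gg (10 * τ))) =
          (gg τ * gg (2 * τ) / (gg (5 * τ) * gg (10 * τ))) * (c ^ 12)⁻¹ := by
        field_simp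
      rw [this, hc12]
      simp
    · unfold fv
      rw [w10_1 h1 h, w10_2 h1 h, w10_5 h1 h, w10_10 h1 h]
      field_simp
      ring
    · unfold fv
      rw [w5_1 h1 h, w5_2 h1 h, w5_5 h1 h, w5_10 h1 h]
      have e : (10 * τ - 5 : ℂ) = 5 * (2 * τ - 1) := by ring
      rw [e]
      have : (5 * (2 * τ - 1)) * (c ^ 5)⁻¹ * gg (5 * τ) *
          (-Complex.I * (5 * (2 * τ - 1)) * (c ^ 4)⁻¹ * gg (10 * τ)) /
          ((2 * τ - 1) * c⁻¹ * gg τ * (-Complex.I * (2 * τ - 1) * c ^ 4 * gg (2 * τ))) =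
          25 / (gg τ * gg (2 * τ) / (gg (5 * τ) * gg (10 * τ))) * (c ^ 12)⁻¹ := by
        field_simp
        ring
      rw [this, hc12]
      simp
    · exact pow_ne_zero _ (mul_ne_zero (mul_ne_zero (mul_ne_zero k1 k2) k5) k10)
  · constructor
    · intro τ h
      obtain ⟨d1, d2, d5, d10⟩ := hdiff τ h
      exact (((d1.mul d2).mul d5).mul d10).pow 2
    · intro τ h
      obtain ⟨p1, p2, p5, p10⟩ := hper τ h
      unfold fD
      rw [p1, p2, p5, p10]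
      have : (c * gg τ * (c ^ 2 * gg (2 * τ)) * (c ^ 5 * gg (5 * τ)) * (c ^ 10 * gg (10 * τ))) ^ 2 =
          (gg τ * gg (2 * τ) * gg (5 * τ) * gg (10 * τ)) ^ 2 * (c ^ 12) ^ 3 := by ring
      rw [this, hc12]
      ring
    · intro τ h
      unfold fD
      rw [w10_1 h1 h, w10_2 h1 h, w10_5 h1 h, w10_10 h1 h]
      have e4 : ((10 * τ ^ 2 : ℂ)) ^ (4 : ℤ) = (10 * τ ^ 2) ^ 4 := by norm_cast
      rw [e4]
      have hI8 : Complex.I ^ 8 = 1 := by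
        calc Complex.I ^ 8 = (Complex.I ^ 2) ^ 4 := by ring
          _ = 1 := by rw [hI2]; ring
      linear_combination (10000 * τ ^ 8 * (gg τ * gg (2 * τ) * gg (5 * τ) * gg (10 * τ)) ^ 2) * hI8
    · intro τ h
      unfold fD
      rw [w5_1 h1 h, w5_2 h1 h, w5_5 h1 h, w5_10 h1 h]
      have e4 : ((5 * (2 * τ - 1) ^ 2 : ℂ)) ^ (4 : ℤ) = (5 * (2 * τ - 1) ^ 2) ^ 4 := by norm_cast
      rw [e4]
      have hI4 : Complex.I ^ 4 = 1 := Complex.I_pow_four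
      have e : (10 * τ - 5 : ℂ) = 5 * (2 * τ - 1) := by ring
      rw [e]
      have : (5 * (2 * τ - 1) * (c ^ 5)⁻¹ * gg (5 * τ) *
          (-Complex.I * (5 * (2 * τ - 1)) * (c ^ 4)⁻¹ * gg (10 * τ)) *
          ((2 * τ - 1) * c⁻¹ * gg τ) * (-Complex.I * (2 * τ - 1) * c ^ 4 * gg (2 * τ))) ^ 2 =
          Complex.I ^ 4 * (c ^ 12)⁻¹ * ((5 * (2 * τ - 1) ^ 2) ^ 4 *
            (gg τ * gg (2 * τ) * gg (5 * τ) * gg (10 * τ)) ^ 2) := by
        field_simp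
      rw [this, hI4, hc12]
      ring

end

end Pool.Agent.H32.S36
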