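import Pool.Agent.H32.S36.Targets

set_option autoImplicit false

open Complex Polynomial

namespace Pool.Agent.H32.S36

noncomputable section

namespace MFFaux

theorem isOpen_uhp : IsOpen {z : ℂ | 0 < z.im} :=
  isOpen_lt continuous_const Complex.continuous_im

theorem ev {τ : ℂ} (h : 0 < τ.im) : ∀ᶠ z in nhds τ, 0 < z.im :=
  isOpen_uhp.mem_nhds h

theorem deriv_fv (h1 : T_VTR) {τ : ℂ} (h : 0 < τ.im) : DifferentiableAt ℂ (deriv fv) τ := by
  have hd : DifferentiableOn ℂ fv {z : ℂ | 0 < z.im} :=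
    fun z hz => (h1.1 z hz).2.1.differentiableWithinAt
  exact (hd.deriv isOpen_uhp).differentiableAt (isOpen_uhp.mem_nhds h)

theorem gen (h1 : T_VTR) {τ : ℂ} (h : 0 < τ.im) (w : ℂ → ℂ) (w' : ℂ) (hw' : w' ≠ 0)
    (hw : HasDerivAt w w' τ) (hwi : 0 < (w τ).im)
    (hev : ∀ z : ℂ, 0 < z.im → fv (w z) = 25 / fv z) : ff (w τ) = -(w')⁻¹ * ff τ := by
  obtain ⟨hne, hd, -⟩ := h1.1 τ h
  obtain ⟨hne2, hd2, -⟩ := h1.1 (w τ) hwi
  have e1 : HasDerivAt (fun z => fv (w z)) (deriv fv (w τ) * w') τ :=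
    HasDerivAt.comp τ hd2.hasDerivAt hw
  have e2 : HasDerivAt (fun z => 25 / fv z) (25 * (-(deriv fv τ) / fv τ ^ 2)) τ := by
    have := (hd.hasDerivAt.inv hne).const_mul 25
    refine this.congr_of_eventuallyEq ?_
    filter_upwards with z
    rw [div_eq_mul_inv]
    rfl
  have e3 : HasDerivAt (fun z => fv (w z)) (25 * (-(deriv fv τ) / fv τ ^ 2)) τ := by
    refine e2.congr_of_eventuallyEq ?_
    filter_upwards [ev h] with z hz
    exact hev z hz
  have e4 := e1.unique e3
  have e5 : deriv fv (w τ) = 25 * (-(deriv fv τ) / fv τ ^ 2) * w'⁻¹ := by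
    rw [← e4, mul_assoc, mul_inv_cancel₀ hw', mul_one]
  have e6 := hev τ h
  unfold ff DD
  rw [e5, e6]
  have hpi : (2 * (Real.pi : ℂ) * Complex.I) ≠ 0 := Complex.two_pi_I_ne_zero
  generalize (2 * (Real.pi : ℂ) * Complex.I)⁻¹ = k
  field_simp

end MFFaux

open MFFaux in
theorem m_MFF (h1 : T_VTR) : T_MFF := by
  refine ⟨⟨?_, ?_, ?_, ?_⟩, ⟨?_, ?_, ?_, ?_⟩, ?_⟩
  · intro τ h
    obtain ⟨hne, hd, -⟩ := h1.1 τ h
    exact (hd.add_const 6).add ((differentiableAt_const _).div hd hne)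
  · intro τ h
    obtain ⟨hne, hd, hp, -⟩ := h1.1 τ h
    unfold fx
    rw [hp]
  · intro τ h
    obtain ⟨hne, hd, hp, hw, -⟩ := h1.1 τ h
    unfold fx
    rw [hw, zpow_zero]
    field_simp
    ring
  · intro τ h
    obtain ⟨hne, hd, hp, -, hw, -⟩ := h1.1 τ h
    unfold fx
    rw [hw, zpow_zero]
    field_simp
    ring
  · intro τ h
    obtain ⟨hne, hd, -⟩ := h1.1 τ h
    unfold ff DD
    exact (((deriv_fv h1 h).const_mul _).neg).div hd hne
  · intro τ h
    obtain ⟨hne, hd, hp, -⟩ := h1.1 τ h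
    have e : deriv fv (τ + 1) = deriv fv τ := by
      rw [← deriv_comp_add_const]
      refine Filter.EventuallyEq.deriv_eq ?_
      filter_upwards [ev h] with z hz
      exact (h1.1 z hz).2.2.1
    unfold ff DD
    rw [e, hp]
  · intro τ h
    have hτ : τ ≠ 0 := by rintro rfl; simp at h
    have hw : HasDerivAt (fun z : ℂ => -1 / (10 * z)) (1 / (10 * τ ^ 2)) τ := by
      have h2 : HasDerivAt (fun z : ℂ => 10 * z) 10 τ := by
        simpa using (hasDerivAt_id τ).const_mul (10 : ℂ)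
      have h3 := (h2.inv (mul_ne_zero (by norm_num) hτ)).const_mul (-1)
      have h4 : -1 * (-10 / (10 * τ) ^ 2) = 1 / (10 * τ ^ 2) := by
        field_simp
      rw [h4] at h3
      refine h3.congr_of_eventuallyEq ?_
      filter_upwards with z
      rw [div_eq_mul_inv]
      rfl
    have hi : 0 < (-1 / (10 * τ)).im := by
      have : (-1 / (10 * τ)).im = (10 * τ).im / Complex.normSq (10 * τ) := by
        rw [neg_div, one_div, Complex.neg_im, Complex.inv_im]
        ring
      rw [this]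
      refine div_pos (by simpa using h) (Complex.normSq_pos.2 (mul_ne_zero (by norm_num) hτ))
    have := gen h1 h (fun z : ℂ => -1 / (10 * z)) (1 / (10 * τ ^ 2))
      (by simp [hτ]) hw hi (fun z hz => (h1.1 z hz).2.2.2.1)
    rw [this]
    rw [zpow_one, one_div, inv_inv]
    ring
  · intro τ h
    have hτ : 0 < (10 * τ - 5).im := by simpa using h
    have hτ0 : (10 * τ - 5 : ℂ) ≠ 0 := by
      intro h0
      rw [h0] at hτ
      simp at hτ
    have h20 : (2 * τ - 1 : ℂ) ≠ 0 := by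
      intro h0
      apply hτ0
      linear_combination 5 * h0
    have hw : HasDerivAt (fun z : ℂ => (5 * z - 3) / (10 * z - 5)) (1 / (5 * (2 * τ - 1) ^ 2)) τ := by
      have h2 : HasDerivAt (fun z : ℂ => 10 * z - 5) 10 τ := by
        simpa using ((hasDerivAt_id τ).const_mul (10 : ℂ)).sub_const 5
      have h3 : HasDerivAt (fun z : ℂ => 5 * z - 3) 5 τ := by
        simpa using ((hasDerivAt_id τ).const_mul (5 : ℂ)).sub_const 3
      have h4 := h3.div h2 hτ0
      have h5 : (5 * (10 * τ - 5) - (5 * τ - 3) * 10) / (10 * τ - 5) ^ 2 =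
          1 / (5 * (2 * τ - 1) ^ 2) := by
        rw [show (10 * τ - 5 : ℂ) = 5 * (2 * τ - 1) by ring]
        rw [div_eq_div_iff (pow_ne_zero _ (mul_ne_zero (by norm_num) h20))
          (mul_ne_zero (by norm_num) (pow_ne_zero _ h20))]
        ring
      rw [h5] at h4
      exact h4
    have hi : 0 < ((5 * τ - 3) / (10 * τ - 5)).im := by
      have : (5 * τ - 3) / (10 * τ - 5) = 1 / 2 + (1 / 2) * (-1 / (10 * τ - 5)) := by
        rw [div_eq_iff hτ0, add_mul, mul_assoc, div_mul_cancel₀ _ hτ0]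
        ring
      rw [this]
      have h6 : (-1 / (10 * τ - 5)).im = (10 * τ - 5).im / Complex.normSq (10 * τ - 5) := by
        rw [neg_div, one_div, Complex.neg_im, Complex.inv_im]
        ring
      have h7 : 0 < (-1 / (10 * τ - 5)).im := by
        rw [h6]
        exact div_pos hτ (Complex.normSq_pos.2 hτ0)
      have h8 : ((1 : ℂ) / 2 + (1 / 2) * (-1 / (10 * τ - 5))).im = (1 / 2) * (-1 / (10 * τ - 5)).im := by
        rw [Complex.add_im, Complex.mul_im]
        norm_num
      rw [h8]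
      positivity
    have := gen h1 h (fun z : ℂ => (5 * z - 3) / (10 * z - 5)) (1 / (5 * (2 * τ - 1) ^ 2))
      (by simp [h20]) hw hi (fun z hz => (h1.1 z hz).2.2.2.2.1)
    rw [this]
    rw [zpow_one, one_div, inv_inv]
    ring
  · intro τ h
    obtain ⟨hne, hd, -⟩ := h1.1 τ h
    have e2 : HasDerivAt (fun z => 25 / fv z) (25 * (-(deriv fv τ) / fv τ ^ 2)) τ := by
      have := (hd.hasDerivAt.inv hne).const_mul 25
      refine this.congr_of_eventuallyEq ?_
      filter_upwards with z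
      rw [div_eq_mul_inv]
      rfl
    have e3 : HasDerivAt fx (deriv fv τ + 25 * (-(deriv fv τ) / fv τ ^ 2)) τ :=
      (hd.hasDerivAt.add_const 6).add e2
    unfold ff
    unfold DD
    rw [e3.deriv]
    generalize (2 * (Real.pi : ℂ) * Complex.I)⁻¹ = k
    field_simp
    ring

end

end Pool.Agent.H32.S36
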